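import Mathlib
import Pool.Agent.Work.MP_c2f093_al.Gen.Final

namespace Pool.Agent.Results.MP_c2f093_al.AlmostAll

/-- Among the elements `u` of word length at most `n` in `F(a,b)`, the proportion of those for
which every `SL(3,C)`-trace equivalent element `v` of `F(a,b)` is conjugate to `u` tends to `1`. -/
theorem result : Filter.Tendsto (fun n : ℕ =>
    ({u : FreeGroup (Fin 2) | u.norm ≤ n ∧ ∀ v : FreeGroup (Fin 2),
      (∀ A B : Matrix.SpecialLinearGroup (Fin 3) ℂ,
        ((FreeGroup.lift ![A, B] u : Matrix.SpecialLinearGroup (Fin 3) ℂ) :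
          Matrix (Fin 3) (Fin 3) ℂ).trace =
        ((FreeGroup.lift ![A, B] v : Matrix.SpecialLinearGroup (Fin 3) ℂ) :
          Matrix (Fin 3) (Fin 3) ℂ).trace) → IsConj u v}.ncard : ℝ) /
    ({u : FreeGroup (Fin 2) | u.norm ≤ n}.ncard : ℝ)) Filter.atTop (nhds 1) :=
  Pool.Agent.Work.MP_c2f093_al.Gen.almost_all

end Pool.Agent.Results.MP_c2f093_al.AlmostAll
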