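import Mathlib
import Pool.Agent.Work.MP_c2f093_al.Main

namespace Pool.Agent.Results.MP_c2f093_al.OnePositive

open Pool.Agent.Work.MP_c2f093_al

/-- Let `u` be, up to an automorphism of `F(a,b)` and conjugation, the word
`a^(e 0) b a^(e 1) b ... a^(e (k-1)) b`.  Suppose that the exponent sums are coprime, or more
generally that some cyclic window sum of the exponent sequence is attained only at rotations
preserving the sequence.  Then every `v` that is `SL(3,C)`-trace equivalent to `u` is conjugate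
to `u`. -/
theorem result (k : ℕ) (hk : 0 < k) (e : ZMod k → ℤ)
    (H : IsCoprime (∑ j ∈ Finset.range k, e (j : ZMod k)) (k : ℤ) ∨
      ∃ (i : ZMod k) (l : ℕ), ∀ i' : ZMod k,
        ∑ t ∈ Finset.range l, e (i' + (t : ZMod k)) = ∑ t ∈ Finset.range l, e (i + (t : ZMod k)) →
        ∀ t : ZMod k, e (i' + t) = e (i + t))
    (φ : FreeGroup (Fin 2) ≃* FreeGroup (Fin 2)) (u v : FreeGroup (Fin 2))
    (hu : IsConj (φ u) ((List.range k).map fun j : ℕ =>
      FreeGroup.of (0 : Fin 2) ^ e (j : ZMod k) * FreeGroup.of (1 : Fin 2)).prod)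
    (h : ∀ A B : Matrix.SpecialLinearGroup (Fin 3) ℂ,
      ((FreeGroup.lift ![A, B] u : Matrix.SpecialLinearGroup (Fin 3) ℂ) :
        Matrix (Fin 3) (Fin 3) ℂ).trace =
      ((FreeGroup.lift ![A, B] v : Matrix.SpecialLinearGroup (Fin 3) ℂ) :
        Matrix (Fin 3) (Fin 3) ℂ).trace) :
    IsConj u v := by
  have : NeZero k := ⟨hk.ne'⟩
  have H' : ∃ (i₀ : ZMod k) (l₀ : ℕ),
      ∀ i, win e i l₀ = win e i₀ l₀ → ∀ t, e (i + t) = e (i₀ + t) := by
    rcases H with H | H
    · rw [sum_range_cast] at H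
      exact unique_window_of_coprime e H
    · exact H
  obtain ⟨i₀, l₀, H'⟩ := H'
  have h1 : TE (φ u) (φ v) := (te_of_sl h).map φ.toMonoidHom
  have h2 : TE (word k e) (φ v) := (TE.of_isConj hu).symm.trans h1
  have h3 : IsConj (φ u) (φ v) := hu.trans (isConj_of_te e i₀ l₀ H' _ h2)
  simpa using φ.symm.toMonoidHom.map_isConj h3

end Pool.Agent.Results.MP_c2f093_al.OnePositive
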