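import Mathlib
import Pool.Agent.Work.MP_c2f093_al.PA.Glue

namespace Pool.Agent.Results.MP_c2f093_al.PropertyA

/-- For `n ≥ 924`, two elements of a free group of finite rank whose traces agree under all
substitutions of elements of `SL(n,C)` for the generators are conjugate. -/
theorem result (r n : ℕ) (hn : 924 ≤ n) (u v : FreeGroup (Fin r))
    (h : ∀ A : Fin r → Matrix.SpecialLinearGroup (Fin n) ℂ,
      ((FreeGroup.lift A u : Matrix.SpecialLinearGroup (Fin n) ℂ) :
        Matrix (Fin n) (Fin n) ℂ).trace =
      ((FreeGroup.lift A v : Matrix.SpecialLinearGroup (Fin n) ℂ) :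
        Matrix (Fin n) (Fin n) ℂ).trace) :
    IsConj u v :=
  Pool.Agent.Work.MP_c2f093_al.PA.property_A hn u v h

end Pool.Agent.Results.MP_c2f093_al.PropertyA
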